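import Pool.Agent.Lib.MP_ff6929_pr.Cycles

set_option autoImplicit false

namespace Pool.Agent.Lib.MP_ff6929_pr

open Finset

theorem card_ham_le (n : ℕ) (hn : 1 ≤ n) :
    Nat.card {M : Matchings K3 n // IsHamiltonian (lift K3 n M)}
      ≤ ∑ j ∈ range (n + 1), (n.factorial ^ 3 * (n - 1).factorial ^ 3) * (n * n - j * (n - j)) := by
  classical
  haveI : NeZero (Nat.card (Fin 3 × Fin n)) := ⟨by simp; omega⟩
  set N := Nat.card (Fin 3 × Fin n) with hN
  let i₀ : Fin n := ⟨0, hn⟩
  let C : Finset (ZMod N ≃ Fin 3 × Fin n) :=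
    univ.filter (fun c => c 0 = (0, i₀) ∧ ∀ v, v.1 ≠ (nxt c v).1)
  have h1 : univ.filter (fun M : Matchings K3 n => IsHamiltonian (lift K3 n M))
      ⊆ C.biUnion (fun c => univ.filter
        (fun M : Matchings K3 n => ∀ v, (lift K3 n M).Adj v (nxt c v))) := by
    intro M hM
    simp only [mem_filter, mem_univ, true_and] at hM
    obtain ⟨c, hc⟩ := hM
    let c' : ZMod N ≃ Fin 3 × Fin n := (Equiv.addRight (c.symm (0, i₀))).trans c
    have hc' : ∀ v, (lift K3 n M).Adj v (nxt c' v) := by
      intro v
      obtain ⟨k, rfl⟩ := c'.surjective v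
      rw [nxt_apply]
      have := hc (k + c.symm (0, i₀))
      simp only [c', Equiv.trans_apply, Equiv.coe_addRight]
      rwa [add_right_comm k 1]
    rw [mem_biUnion]
    refine ⟨c', ?_, ?_⟩
    · simp only [C, mem_filter, mem_univ, true_and]
      refine ⟨by simp [c'], fun v => ?_⟩
      obtain ⟨h, -⟩ := hc' v
      exact h
    · simp only [mem_filter, mem_univ, true_and]
      exact hc'
  rw [Nat.card_eq_fintype_card, Fintype.card_subtype]
  refine (card_le_card h1).trans (card_biUnion_le.trans ?_)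
  have h2 : ∑ c ∈ C, (univ.filter
        (fun M : Matchings K3 n => ∀ v, (lift K3 n M).Adj v (nxt c v))).card
      ≤ ∑ c ∈ C, ((fwd c 0).card.factorial * (n - (fwd c 0).card).factorial) ^ 3 := by
    apply sum_le_sum
    intro c hc
    simp only [C, mem_filter, mem_univ, true_and] at hc
    exact card_matchings_le c hc.2
  refine h2.trans ?_
  have hmaps : ∀ c ∈ C, (fwd c 0).card ∈ range (n + 1) := by
    intro c _
    have : (fwd c 0).card ≤ n := by simpa using card_le_univ (fwd c 0)
    rw [mem_range]; omega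
  rw [← sum_fiberwise_of_maps_to hmaps]
  apply sum_le_sum
  intro j hj
  have hjn : j ≤ n := by rw [mem_range] at hj; omega
  have h3 : ∑ c ∈ C.filter (fun c => (fwd c 0).card = j),
      ((fwd c 0).card.factorial * (n - (fwd c 0).card).factorial) ^ 3
      = (C.filter (fun c => (fwd c 0).card = j)).card * (j.factorial * (n - j).factorial) ^ 3 := by
    rw [← smul_eq_mul, ← sum_const]
    apply sum_congr rfl
    intro c hc
    rw [(mem_filter.1 hc).2]
  rw [h3]
  have h4 : (C.filter (fun c => (fwd c 0).card = j)).card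
      ≤ ((n - 1).factorial ^ 3 * (n * n - j * (n - j))) *
        (Fintype.piFinset (fun _ : Fin 3 => powersetCard j (univ : Finset (Fin n)))).card := by
    apply card_le_mul_card_image_of_maps_to (f := fun c => fwd c)
    · intro c hc
      simp only [C, mem_filter, mem_univ, true_and] at hc
      rw [Fintype.mem_piFinset]
      intro x
      rw [mem_powersetCard]
      exact ⟨subset_univ _, (card_fwd_eq c hc.1.2 x).trans hc.2⟩
    · intro s hs
      rw [Fintype.mem_piFinset] at hs
      have e1 := (mem_powersetCard.1 (hs 1)).2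
      have e2 := (mem_powersetCard.1 (hs 2)).2
      have := card_cycles_le (N := N) i₀ s
      rw [e1, e2] at this
      refine le_trans (card_le_card ?_) this
      intro c hc
      simp only [C, mem_filter, mem_univ, true_and] at hc ⊢
      exact ⟨hc.1.1.1, hc.1.1.2, hc.2⟩
  rw [Fintype.card_piFinset] at h4
  simp only [card_powersetCard, card_univ, Fintype.card_fin, prod_const] at h4
  refine (Nat.mul_le_mul_right _ h4).trans (le_of_eq ?_)
  rw [← Nat.choose_mul_factorial_mul_factorial hjn]
  ring

theorem card_matchings (n : ℕ) : Nat.card (Matchings K3 n) = n.factorial ^ 6 := by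
  rw [Nat.card_eq_fintype_card, Fintype.card_fun, Fintype.card_perm, Fintype.card_fin]
  have : Fintype.card (Arc K3) = 6 := by decide
  rw [this]

theorem sum_formula (n m : ℝ) (k : ℕ) :
    ∑ j ∈ range k, (m - (j : ℝ) * (n - j)) =
      k * m - n * (k * (k - 1) / 2) + k * (k - 1) * (2 * k - 1) / 6 := by
  induction k with
  | zero => simp
  | succ k ih => rw [sum_range_succ, ih]; push_cast; ring

/-- First moment bound: the probability of being Hamiltonian is at most the expected number
`(n+1)(5n+1)/(6n^2)` of Hamilton cycles. -/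
theorem hamProb_le (n : ℕ) (hn : 1 ≤ n) :
    hamProb K3 n ≤ ((n : ℝ) + 1) * (5 * n + 1) / (6 * n ^ 2) := by
  have h := card_ham_le n hn
  unfold hamProb
  rw [card_matchings]
  obtain ⟨m, rfl⟩ : ∃ m, n = m + 1 := ⟨n - 1, by omega⟩
  have hf : (0 : ℝ) < (m.factorial : ℝ) := by exact_mod_cast m.factorial_pos
  have hm : (0 : ℝ) < (m : ℝ) + 1 := by positivity
  have h' : (Nat.card {M : Matchings K3 (m + 1) // IsHamiltonian (lift K3 (m + 1) M)} : ℝ)
      ≤ ∑ j ∈ range (m + 1 + 1), ((((m : ℝ) + 1) * m.factorial) ^ 3 * (m.factorial : ℝ) ^ 3) *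
        (((m : ℝ) + 1) * (m + 1) - (j : ℝ) * ((m + 1) - j)) := by
    refine (Nat.cast_le.2 h).trans (le_of_eq ?_)
    rw [Nat.cast_sum]
    apply sum_congr rfl
    intro j hj
    have hj' : j ≤ m + 1 := by rw [mem_range] at hj; omega
    have h5 : j * (m + 1 - j) ≤ (m + 1) * (m + 1) := Nat.mul_le_mul hj' (Nat.sub_le _ _)
    rw [Nat.cast_mul, Nat.cast_sub h5, Nat.cast_mul j, Nat.cast_sub hj', Nat.factorial_succ]
    simp
  rw [← mul_sum, sum_formula] at h'
  rw [div_le_iff₀ (by positivity)]
  refine h'.trans (le_of_eq ?_)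
  rw [Nat.factorial_succ]
  push_cast
  field_simp
  ring

end Pool.Agent.Lib.MP_ff6929_pr
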