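import Mathlib

set_option autoImplicit false

namespace Pool.Agent.Lib.MP_ff6929_pr

open Finset

/-- Permutations prescribed on a set `S` number at most `(n - |S|)!`. -/
theorem card_perm_prescribed {n : ℕ} (S : Finset (Fin n)) (g : Fin n → Fin n) :
    (univ.filter (fun π : Equiv.Perm (Fin n) => ∀ i ∈ S, π i = g i)).card
      ≤ (n - S.card).factorial := by
  classical
  rcases (univ.filter (fun π : Equiv.Perm (Fin n) => ∀ i ∈ S, π i = g i)).eq_empty_or_nonempty
    with h | ⟨π₀, h₀⟩
  · rw [h]; simp
  · have h₀' : ∀ i ∈ S, π₀ i = g i := by simpa using h₀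
    have e := Equiv.Perm.subtypeEquivSubtypePerm (fun a : Fin n => a ∉ S)
    have hc : Fintype.card {f : Equiv.Perm (Fin n) // ∀ a, ¬ (a ∉ S) → f a = a}
        = (n - S.card).factorial := by
      rw [← Fintype.card_congr e, Fintype.card_perm, Fintype.card_subtype_compl]
      simp
    rw [← hc, Fintype.card_subtype]
    apply Finset.card_le_card_of_injOn (fun π => π₀⁻¹ * π)
    · intro π hπ
      have hπ' : ∀ i ∈ S, π i = g i := by simpa using hπ
      simp only [coe_filter, mem_univ, true_and, Set.mem_ofPred_eq, not_not]
      intro a ha
      rw [Equiv.Perm.mul_apply, hπ' a ha, ← h₀' a ha]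
      simp
    · intro a _ b _ hab
      simpa using hab

/-- A walk whose next class is determined by the current vertex is determined by its first class
and the orders in which the classes are visited. -/
theorem list_reconstruct {V X : Type*} [DecidableEq X] (cl τ : V → X) :
    ∀ (L L' : List V), L.IsChain (fun a b => cl b = τ a) → L'.IsChain (fun a b => cl b = τ a) →
      (∀ a ∈ L.head?, ∀ b ∈ L'.head?, cl a = cl b) →
      (∀ x, L.filter (fun v => cl v = x) = L'.filter (fun v => cl v = x)) → L = L' := by
  intro L
  induction L with
  | nil =>
    intro L' _ _ _ hf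
    cases L' with
    | nil => rfl
    | cons b T => have := hf (cl b); simp at this
  | cons a T ih =>
    intro L' h1 h2 hh hf
    cases L' with
    | nil => have := hf (cl a); simp at this
    | cons b T' =>
      have hab : cl a = cl b := hh a (by simp) b (by simp)
      have h3 := hf (cl a)
      simp only [List.filter_cons, decide_true, if_true, hab] at h3
      have hab' : a = b := (List.cons.inj h3).1
      subst hab'
      congr 1
      apply ih T' h1.tail h2.tail
      · intro u hu v hv
        have e1 := (List.isChain_cons.1 h1).1 u hu
        have e2 := (List.isChain_cons.1 h2).1 v hv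
        rw [e1, e2]
      · intro x
        have h4 := hf x
        simp only [List.filter_cons] at h4
        split_ifs at h4 with h5
        · exact (List.cons.inj h4).2
        · exact h4

/-- The last-exit property, read on the reversed walk. -/
theorem last_exit {V : Type*} (cl τ : V → Fin 3) :
    ∀ (R : List V), R.IsChain (fun a b => cl a = τ b) → (∀ a ∈ R.head?, τ a = 0) →
      ∀ u ∈ (R.filter (fun v => cl v = 1)).head?, ∀ w ∈ (R.filter (fun v => cl v = 2)).head?,
        ¬ (τ u = 2 ∧ τ w = 1) := by
  intro R
  induction R with
  | nil => intro _ _ u hu; simp at hu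
  | cons a T ih =>
    intro h1 h0 u hu w hw
    have ha : τ a = 0 := h0 a (by simp)
    by_cases c1 : cl a = 1
    · simp only [List.filter_cons, c1, decide_true, if_true, List.head?_cons, Option.mem_def,
        Option.some.injEq] at hu
      subst hu
      rw [ha]; rintro ⟨h, _⟩; exact absurd h (by decide)
    · by_cases c2 : cl a = 2
      · simp only [List.filter_cons, c2, decide_true, if_true, List.head?_cons, Option.mem_def,
          Option.some.injEq] at hw
        subst hw
        rw [ha]; rintro ⟨_, h⟩; exact absurd h (by decide)
      · have c0 : cl a = 0 := by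
          revert c1 c2; generalize cl a = y; revert y; decide
        simp only [List.filter_cons, c1, c2, decide_false] at hu hw
        apply ih h1.tail _ u (by simpa using hu) w (by simpa using hw)
        intro b hb
        have := (List.isChain_cons.1 h1).1 b hb
        rw [← this, c0]

/-- Orderings of a finite set. -/
noncomputable def orders {V : Type*} [DecidableEq V] (S : Finset V) : Finset (List V) :=
  S.toList.permutations.toFinset

theorem card_orders_le {V : Type*} [DecidableEq V] (S : Finset V) :
    (orders S).card ≤ S.card.factorial := by
  unfold orders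
  refine (List.toFinset_card_le _).trans ?_
  rw [List.length_permutations, Finset.length_toList]

theorem mem_orders {V : Type*} [DecidableEq V] (S : Finset V) (l : List V) (h1 : l.Nodup)
    (h2 : ∀ v, v ∈ l ↔ v ∈ S) : l ∈ orders S := by
  unfold orders
  rw [List.mem_toFinset, List.mem_permutations,
    List.perm_ext_iff_of_nodup h1 (Finset.nodup_toList S)]
  intro v; rw [h2, Finset.mem_toList]

theorem tail_mem_orders {V : Type*} [DecidableEq V] (S : Finset V) (a : V) (l : List V)
    (h1 : (a :: l).Nodup) (h2 : ∀ v, v ∈ a :: l ↔ v ∈ S) : l ∈ orders (S.erase a) := by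
  apply mem_orders _ _ h1.of_cons
  intro v
  have h3 := h2 v
  have h4 : a ∉ l := (List.nodup_cons.1 h1).1
  rw [Finset.mem_erase, ← h3, List.mem_cons]
  constructor
  · intro hv; exact ⟨fun h => h4 (h ▸ hv), Or.inr hv⟩
  · rintro ⟨h5, h6 | h6⟩
    · exact absurd h6 h5
    · exact h6

end Pool.Agent.Lib.MP_ff6929_pr
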