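import Pool.Agent.Lib.MP_ff6929_pr.Defs
import Pool.Agent.Lib.MP_ff6929_pr.Lists

set_option autoImplicit false

namespace Pool.Agent.Lib.MP_ff6929_pr

open Finset

instance decAdj (h : ℕ) : DecidableRel (completeDigraph h).Adj :=
  fun x y => inferInstanceAs (Decidable (x ≠ y))

abbrev K3 : Digraph (Fin 3) := completeDigraph 3

theorem f3a : ∀ x : Fin 3, x = x + 1 + 2 := by decide
theorem f3b : ∀ x : Fin 3, x = x + 2 + 1 := by decide
theorem f3c : ∀ x : Fin 3, x + 2 ≠ x + 1 := by decide
theorem f3d : ∀ x y z : Fin 3, x ≠ y → ¬ y = x + 1 → x ≠ z → (z = y ↔ ¬ z = x + 1) := by decide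

instance decLift (n : ℕ) (M : Matchings K3 n) : DecidableRel (lift K3 n M).Adj :=
  fun u v => inferInstanceAs (Decidable (∃ h : K3.Adj u.1 v.1, M ⟨(u.1, v.1), h⟩ u.2 = v.2))

section
variable {n N : ℕ}

/-- successor map of a cyclic arrangement -/
def nxt (c : ZMod N ≃ Fin 3 × Fin n) (v : Fin 3 × Fin n) : Fin 3 × Fin n := c (c.symm v + 1)

/-- class of the successor, given the sets of forward vertices -/
def tgt (s : Fin 3 → Finset (Fin n)) (v : Fin 3 × Fin n) : Fin 3 :=
  if v.2 ∈ s v.1 then v.1 + 1 else v.1 + 2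

/-- forward sets of a cyclic arrangement -/
def fwd (c : ZMod N ≃ Fin 3 × Fin n) (x : Fin 3) : Finset (Fin n) :=
  univ.filter (fun i => (nxt c (x, i)).1 = x + 1)

theorem nxt_apply (c : ZMod N ≃ Fin 3 × Fin n) (k : ZMod N) : nxt c (c k) = c (k + 1) := by
  simp [nxt]

theorem tgt_fwd (c : ZMod N ≃ Fin 3 × Fin n) (hc : ∀ v, v.1 ≠ (nxt c v).1) (v : Fin 3 × Fin n) :
    tgt (fwd c) v = (nxt c v).1 := by
  have h := hc v
  unfold tgt fwd
  simp only [mem_filter, mem_univ, true_and, Prod.mk.eta]
  split_ifs with h1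
  · exact h1.symm
  · revert h h1
    generalize (nxt c v).1 = y
    generalize v.1 = x
    revert x y; decide

theorem card_tgt (s : Fin 3 → Finset (Fin n)) (y : Fin 3) :
    (univ.filter (fun v : Fin 3 × Fin n => tgt s v = y)).card
      = (s (y + 2)).card + (n - (s (y + 1)).card) := by
  have h1 : univ.filter (fun v : Fin 3 × Fin n => tgt s v = y)
      = ({y + 2} ×ˢ s (y + 2)) ∪ ({y + 1} ×ˢ (s (y + 1))ᶜ) := by
    ext ⟨x, i⟩
    simp only [tgt, mem_filter, mem_univ, true_and, mem_union, mem_product, mem_singleton,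
      mem_compl]
    constructor
    · intro h
      split_ifs at h with h2
      · left
        have : x = y + 2 := by rw [← h]; exact f3a x
        subst this; exact ⟨rfl, h2⟩
      · right
        have : x = y + 1 := by rw [← h]; exact f3b x
        subst this; exact ⟨rfl, h2⟩
    · rintro (⟨rfl, h⟩ | ⟨rfl, h⟩)
      · rw [if_pos h]; exact (f3b y).symm
      · rw [if_neg h]; exact (f3a y).symm
  rw [h1, card_union_of_disjoint]
  · simp [card_compl]
  · rw [disjoint_left]
    rintro ⟨x, i⟩ h2 h3
    simp only [mem_product, mem_singleton] at h2 h3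
    exact f3c y (h2.1.symm.trans h3.1)

theorem card_fwd_eq (c : ZMod N ≃ Fin 3 × Fin n) (hc : ∀ v, v.1 ≠ (nxt c v).1) (x : Fin 3) :
    (fwd c x).card = (fwd c 0).card := by
  have key : ∀ y : Fin 3, (fwd c (y + 2)).card = (fwd c (y + 1)).card := by
    intro y
    have h1 := card_tgt (fwd c) y
    have h2 : (univ.filter (fun v : Fin 3 × Fin n => tgt (fwd c) v = y)).card = n := by
      have h3 : (univ.filter (fun v : Fin 3 × Fin n => v.1 = y)).card = n := by
        have : univ.filter (fun v : Fin 3 × Fin n => v.1 = y) = {y} ×ˢ univ := by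
          ext ⟨a, b⟩; simp [eq_comm]
        rw [this]; simp
      refine Eq.trans ?_ h3
      apply Finset.card_bij (fun v _ => nxt c v)
      · intro v hv
        simp only [mem_filter, mem_univ, true_and] at hv ⊢
        rw [← tgt_fwd c hc v, hv]
      · intro a _ b _ hab
        unfold nxt at hab
        simpa using hab
      · intro b hb
        refine ⟨c (c.symm b - 1), ?_, ?_⟩
        · simp only [mem_filter, mem_univ, true_and] at hb ⊢
          rw [tgt_fwd c hc, nxt_apply]; simpa using hb
        · rw [nxt_apply]; simp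
    have h4 : (fwd c (y + 1)).card ≤ n := by
      simpa using card_le_univ (fwd c (y + 1))
    omega
  have k0 := key 0
  have k1 := key 1
  have e1 : (0 : Fin 3) + 2 = 2 := rfl
  have e2 : (0 : Fin 3) + 1 = 1 := rfl
  have e3 : (1 : Fin 3) + 2 = 0 := rfl
  have e4 : (1 : Fin 3) + 1 = 2 := rfl
  rw [e1, e2] at k0
  rw [e3, e4] at k1
  fin_cases x
  · rfl
  · exact k0.symm.trans k1.symm
  · exact k1.symm

/-- Number of matchings containing a given cyclic arrangement. -/
theorem card_matchings_le (c : ZMod N ≃ Fin 3 × Fin n) (hc : ∀ v, v.1 ≠ (nxt c v).1) :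
    (univ.filter (fun M : Matchings K3 n => ∀ v, (lift K3 n M).Adj v (nxt c v))).card
      ≤ ((fwd c 0).card.factorial * (n - (fwd c 0).card).factorial) ^ 3 := by
  classical
  set j := (fwd c 0).card with hj
  have hsub : univ.filter (fun M : Matchings K3 n => ∀ v, (lift K3 n M).Adj v (nxt c v))
      ⊆ Fintype.piFinset (fun e : Arc K3 => univ.filter (fun π : Equiv.Perm (Fin n) =>
        ∀ i ∈ univ.filter (fun i => (nxt c (e.1.1, i)).1 = e.1.2), π i = (nxt c (e.1.1, i)).2)) := by
    intro M hM
    simp only [mem_filter, mem_univ, true_and, Fintype.mem_piFinset] at hM ⊢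
    rintro ⟨⟨x, y⟩, hxy⟩ i hi
    obtain ⟨h, h2⟩ := hM (x, i)
    simp only at hi h2 ⊢
    subst hi
    exact h2
  refine (card_le_card hsub).trans ?_
  rw [Fintype.card_piFinset]
  have hjn : j ≤ n := by simpa using card_le_univ (fwd c 0)
  have hb : ∀ e : Arc K3, (univ.filter (fun π : Equiv.Perm (Fin n) =>
        ∀ i ∈ univ.filter (fun i => (nxt c (e.1.1, i)).1 = e.1.2), π i = (nxt c (e.1.1, i)).2)).card
        ≤ if e.1.2 = e.1.1 + 1 then (n - j).factorial else j.factorial := by
    rintro ⟨⟨x, y⟩, hxy⟩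
    refine (card_perm_prescribed _ _).trans (le_of_eq ?_)
    simp only
    split_ifs with h1
    · subst h1
      have := card_fwd_eq c hc x
      unfold fwd at this
      rw [this]; rfl
    · have h2 : univ.filter (fun i => (nxt c (x, i)).1 = y) = (fwd c x)ᶜ := by
        ext i
        have h3 := hc (x, i)
        have hxy' : x ≠ y := hxy
        simp only [fwd, mem_filter, mem_univ, true_and, mem_compl]
        exact f3d _ _ _ hxy' h1 h3
      rw [h2, card_compl, card_fwd_eq c hc x, ← hj]
      simp [Nat.sub_sub_self hjn]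
  refine (Finset.prod_le_prod' (fun e _ => hb e)).trans (le_of_eq ?_)
  rw [Finset.prod_ite, Finset.prod_const, Finset.prod_const]
  have c1 : (univ.filter (fun e : Arc K3 => e.1.2 = e.1.1 + 1)).card = 3 := by decide
  have c2 : (univ.filter (fun e : Arc K3 => ¬ e.1.2 = e.1.1 + 1)).card = 3 := by decide
  rw [c1, c2]; ring

end

end Pool.Agent.Lib.MP_ff6929_pr
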