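import Pool.Agent.Lib.MP_ff6929_pr.Count

set_option autoImplicit false

namespace Pool.Agent.Lib.MP_ff6929_pr

open Finset

section
variable {V : Type} {N : ℕ} [NeZero N]

/-- The list of vertices of a cyclic arrangement, starting at position `0`. -/
def walk (c : ZMod N ≃ V) : List V := (List.range N).map (fun k : ℕ => c (k : ZMod N))

theorem walk_nodup (c : ZMod N ≃ V) : (walk c).Nodup := by
  apply List.Nodup.map_on _ List.nodup_range
  intro a ha b hb hab
  have h1 := c.injective hab
  rw [ZMod.natCast_eq_natCast_iff', Nat.mod_eq_of_lt (List.mem_range.1 ha),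
    Nat.mod_eq_of_lt (List.mem_range.1 hb)] at h1
  exact h1

theorem mem_walk (c : ZMod N ≃ V) (v : V) : v ∈ walk c := by
  unfold walk
  rw [List.mem_map]
  exact ⟨(c.symm v).val, List.mem_range.2 (ZMod.val_lt _), by simp⟩

theorem walk_head (c : ZMod N ≃ V) : (walk c).head? = some (c 0) := by
  obtain ⟨m, rfl⟩ := Nat.exists_eq_succ_of_ne_zero (NeZero.ne N)
  unfold walk
  rw [List.range_succ_eq_map]
  simp

theorem walk_last (c : ZMod N ≃ V) : (walk c).getLast? = some (c (-1)) := by
  obtain ⟨m, rfl⟩ := Nat.exists_eq_succ_of_ne_zero (NeZero.ne N)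
  unfold walk
  rw [List.range_succ]
  have : ((m : ℕ) : ZMod (m + 1)) = -1 := by
    have h := ZMod.natCast_self (m + 1)
    push_cast at h
    exact eq_neg_of_add_eq_zero_left h
  simp [this]

theorem walk_chain (c : ZMod N ≃ V) (r : V → V → Prop) (h : ∀ k, r (c k) (c (k + 1))) :
    (walk c).IsChain r := by
  unfold walk
  rw [List.isChain_map, List.isChain_range]
  intro m _
  have := h (m : ZMod N)
  simpa using this

theorem walk_injective (c c' : ZMod N ≃ V) (h : walk c = walk c') : c = c' := by
  unfold walk at h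
  rw [List.map_inj_left] at h
  ext k
  have := h k.val (List.mem_range.2 (ZMod.val_lt _))
  simpa using this

end

section
variable {n N : ℕ} [NeZero N]

/-- fibre over a vertex of the base -/
def fib (n : ℕ) (x : Fin 3) : Finset (Fin 3 × Fin n) := univ.filter (fun v => v.1 = x)

theorem card_fib (x : Fin 3) : (fib n x).card = n := by
  have : fib n x = {x} ×ˢ univ := by
    ext ⟨a, b⟩; simp [fib, eq_comm]
  rw [this]; simp

theorem filter_struct (L : List (Fin 3 × Fin n)) (h1 : L.Nodup) (h2 : ∀ v, v ∈ L) (x : Fin 3)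
    (d : Fin 3 × Fin n) :
    ∃ i T, L.filter (fun v => v.1 = x) = (x, i) :: T ∧ T ∈ orders ((fib n x).erase (x, i)) := by
  have hm : ∀ v, v ∈ L.filter (fun v => v.1 = x) ↔ v ∈ fib n x := by
    intro v; simp [fib, h2 v]
  have hn : (L.filter (fun v => v.1 = x)).Nodup := h1.filter _
  cases hL : L.filter (fun v => v.1 = x) with
  | nil =>
    have := (hm (x, d.2)).2 (by simp [fib])
    rw [hL] at this; simp at this
  | cons a T =>
    rw [hL] at hm hn
    have ha : a.1 = x := by
      have := (hm a).1 (by simp)
      simpa [fib] using this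
    obtain ⟨a1, a2⟩ := a
    simp only at ha
    subst ha
    exact ⟨a2, T, rfl, tail_mem_orders _ _ _ hn hm⟩

theorem card_cycles_le (i₀ : Fin n) (s : Fin 3 → Finset (Fin n)) :
    (univ.filter (fun c : ZMod N ≃ Fin 3 × Fin n =>
      c 0 = (0, i₀) ∧ (∀ v, v.1 ≠ (nxt c v).1) ∧ fwd c = s)).card
      ≤ (n - 1).factorial ^ 3 * (n * n - (s 1).card * (n - (s 2).card)) := by
  classical
  have hgood : (univ.filter (fun p : Fin n × Fin n => ¬ (p.1 ∈ s 1 ∧ p.2 ∉ s 2))).card
      = n * n - (s 1).card * (n - (s 2).card) := by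
    have : univ.filter (fun p : Fin n × Fin n => ¬ (p.1 ∈ s 1 ∧ p.2 ∉ s 2))
        = (s 1 ×ˢ (s 2)ᶜ)ᶜ := by
      ext ⟨a, b⟩; simp
    rw [this, card_compl, card_product, card_compl]; simp
  rw [← hgood]
  have hchain : ∀ c : ZMod N ≃ Fin 3 × Fin n, (∀ v, v.1 ≠ (nxt c v).1) → fwd c = s →
      (walk c).IsChain (fun a b => b.1 = tgt s a) := by
    intro c hc hs
    apply walk_chain
    intro k
    rw [← hs, tgt_fwd c hc, nxt_apply]
  apply card_le_mul_card_image_of_maps_to
    (f := fun c : ZMod N ≃ Fin 3 × Fin n =>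
      ((((walk c).reverse.filter (fun v => v.1 = 1)).headD (0, i₀)).2,
       (((walk c).reverse.filter (fun v => v.1 = 2)).headD (0, i₀)).2))
  · intro c hc
    simp only [mem_filter, mem_univ, true_and] at hc ⊢
    obtain ⟨h0, hc, hs⟩ := hc
    have hnd : (walk c).reverse.Nodup := List.nodup_reverse.2 (walk_nodup c)
    have hmem : ∀ v, v ∈ (walk c).reverse := fun v => List.mem_reverse.2 (mem_walk c v)
    obtain ⟨i1, T1, e1, -⟩ := filter_struct _ hnd hmem 1 (0, i₀)
    obtain ⟨i2, T2, e2, -⟩ := filter_struct _ hnd hmem 2 (0, i₀)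
    have hl := last_exit (fun v : Fin 3 × Fin n => v.1) (tgt s) (walk c).reverse
      (List.isChain_reverse.2 (hchain c hc hs)) (by
        intro a ha
        rw [List.head?_reverse, walk_last] at ha
        have : c (-1) = a := by simpa using ha
        rw [← this, ← hs, tgt_fwd c hc, nxt_apply]
        simp [h0]) (1, i1) (by rw [e1]; simp) (2, i2) (by rw [e2]; simp)
    rw [e1, e2]
    simp only [List.headD_cons]
    rintro ⟨g1, g2⟩
    apply hl
    unfold tgt
    simp only [g1, g2, if_true, if_false]
    exact ⟨rfl, rfl⟩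
  · rintro ⟨i1, i2⟩ -
    have hcard : (orders ((fib n 0).erase (0, i₀)) ×ˢ orders ((fib n 1).erase (1, i1))
        ×ˢ orders ((fib n 2).erase (2, i2))).card ≤ (n - 1).factorial ^ 3 := by
      have q : ∀ (x : Fin 3) (i : Fin n),
          (orders ((fib n x).erase (x, i))).card ≤ (n - 1).factorial := by
        intro x i
        refine (card_orders_le _).trans (le_of_eq ?_)
        rw [card_erase_of_mem (by simp [fib]), card_fib]
      rw [card_product, card_product, pow_three]
      exact Nat.mul_le_mul (q _ _) (Nat.mul_le_mul (q _ _) (q _ _))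
    refine le_trans ?_ hcard
    have hstruct : ∀ c : ZMod N ≃ Fin 3 × Fin n, c 0 = (0, i₀) →
        (((walk c).reverse.filter (fun v => v.1 = 1)).headD (0, i₀)).2 = i1 →
        (((walk c).reverse.filter (fun v => v.1 = 2)).headD (0, i₀)).2 = i2 →
        ∃ T0 T1 T2, (walk c).filter (fun v => v.1 = 0) = (0, i₀) :: T0 ∧
          (walk c).reverse.filter (fun v => v.1 = 1) = (1, i1) :: T1 ∧
          (walk c).reverse.filter (fun v => v.1 = 2) = (2, i2) :: T2 ∧
          T0 ∈ orders ((fib n 0).erase (0, i₀)) ∧ T1 ∈ orders ((fib n 1).erase (1, i1)) ∧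
          T2 ∈ orders ((fib n 2).erase (2, i2)) := by
      intro c h0 g1 g2
      have hnd : (walk c).reverse.Nodup := List.nodup_reverse.2 (walk_nodup c)
      have hmem : ∀ v, v ∈ (walk c).reverse := fun v => List.mem_reverse.2 (mem_walk c v)
      obtain ⟨j0, T0, e0, m0⟩ := filter_struct _ (walk_nodup c) (mem_walk c) 0 (0, i₀)
      obtain ⟨j1, T1, e1, m1⟩ := filter_struct _ hnd hmem 1 (0, i₀)
      obtain ⟨j2, T2, e2, m2⟩ := filter_struct _ hnd hmem 2 (0, i₀)
      rw [e1] at g1
      rw [e2] at g2
      simp only [List.headD_cons] at g1 g2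
      subst g1 g2
      have hj0 : j0 = i₀ := by
        have hh := walk_head c
        rw [h0] at hh
        cases hw : walk c with
        | nil => rw [hw] at hh; simp at hh
        | cons a T =>
          rw [hw] at hh e0
          have : a = (0, i₀) := by simpa using hh
          subst this
          simp only [List.filter_cons, decide_true, if_true, List.cons.injEq, Prod.mk.injEq,
            true_and] at e0
          exact e0.1.symm
      subst hj0
      exact ⟨T0, T1, T2, e0, e1, e2, m0, m1, m2⟩
    apply card_le_card_of_injOn (fun c : ZMod N ≃ Fin 3 × Fin n =>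
      (((walk c).filter (fun v => v.1 = 0)).tail,
       ((walk c).reverse.filter (fun v => v.1 = 1)).tail,
       ((walk c).reverse.filter (fun v => v.1 = 2)).tail))
    · intro c hc
      simp only [coe_filter, mem_filter, mem_univ, true_and, Set.mem_ofPred_eq, Prod.mk.injEq] at hc
      obtain ⟨⟨h0, -, -⟩, g1, g2⟩ := hc
      obtain ⟨T0, T1, T2, e0, e1, e2, m0, m1, m2⟩ := hstruct c h0 g1 g2
      simp only [e0, e1, e2, List.tail_cons, coe_product, Set.mem_prod, mem_coe]
      exact ⟨m0, m1, m2⟩
    · intro c hc c' hc' hcc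
      simp only [coe_filter, mem_filter, mem_univ, true_and, Set.mem_ofPred_eq,
        Prod.mk.injEq] at hc hc'
      obtain ⟨⟨h0, hc, hs⟩, g1, g2⟩ := hc
      obtain ⟨⟨h0', hc', hs'⟩, g1', g2'⟩ := hc'
      obtain ⟨T0, T1, T2, e0, e1, e2, -⟩ := hstruct c h0 g1 g2
      obtain ⟨T0', T1', T2', e0', e1', e2', -⟩ := hstruct c' h0' g1' g2'
      simp only [e0, e1, e2, e0', e1', e2', List.tail_cons, Prod.mk.injEq] at hcc
      obtain ⟨rfl, rfl, rfl⟩ := hcc
      apply walk_injective
      apply list_reconstruct (fun v : Fin 3 × Fin n => v.1) (tgt s) _ _ (hchain c hc hs)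
        (hchain c' hc' hs')
      · intro a ha b hb
        rw [walk_head, h0] at ha
        rw [walk_head, h0'] at hb
        have e : a = b := by
          have ha' : (0, i₀) = a := by simpa using ha
          have hb' : (0, i₀) = b := by simpa using hb
          rw [← ha', ← hb']
        rw [e]
      · intro x
        fin_cases x
        · exact e0.trans e0'.symm
        · have := e1.trans e1'.symm
          rw [List.filter_reverse, List.filter_reverse, List.reverse_inj] at this
          exact this
        · have := e2.trans e2'.symm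
          rw [List.filter_reverse, List.filter_reverse, List.reverse_inj] at this
          exact this

end

end Pool.Agent.Lib.MP_ff6929_pr
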