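import Mathlib

set_option autoImplicit false

namespace Pool.Agent.Lib.MP_ff6929_pr

/-- The complete digraph on `h` vertices: all ordered pairs of distinct vertices are arcs. -/
def completeDigraph (h : ℕ) : Digraph (Fin h) where
  Adj x y := x ≠ y

/-- The arcs of a digraph. -/
abbrev Arc {W : Type} (D : Digraph W) : Type := {e : W × W // D.Adj e.1 e.2}

/-- A choice, for each arc `(x, y)` of `D`, of a perfect matching between the fibres
`{x} × Fin n` and `{y} × Fin n`, given as a bijection of `Fin n`. -/
abbrev Matchings {W : Type} (D : Digraph W) (n : ℕ) : Type := Arc D → Equiv.Perm (Fin n)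

/-- The `n`-lift of `D` given by the matchings `M`: there is an arc from `(x, i)` to `(y, j)`
exactly when `(x, y)` is an arc of `D` and its matching sends `i` to `j`. -/
def lift {W : Type} (D : Digraph W) (n : ℕ) (M : Matchings D n) : Digraph (W × Fin n) where
  Adj u v := ∃ h : D.Adj u.1 v.1, M ⟨(u.1, v.1), h⟩ u.2 = v.2

/-- A finite digraph is Hamiltonian if its vertices can be arranged cyclically, each exactly once,
so that each vertex sends an arc to the next one. -/
def IsHamiltonian {V : Type} (G : Digraph V) : Prop :=
  ∃ c : ZMod (Nat.card V) ≃ V, ∀ k, G.Adj (c k) (c (k + 1))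

/-- The probability that the random `n`-lift of `D` is Hamiltonian: the matchings of the arcs are
independent and uniform, so the family of matchings is uniform on `Matchings D n`. -/
noncomputable def hamProb {W : Type} (D : Digraph W) (n : ℕ) : ℝ :=
  (Nat.card {M : Matchings D n // IsHamiltonian (lift D n M)} : ℝ) / Nat.card (Matchings D n)

end Pool.Agent.Lib.MP_ff6929_pr
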