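import Mathlib

set_option autoImplicit false

namespace Pool.Agent.Lib.MP_ff6929_pr

open Finset

/-- The number of subsets invariant under a permutation. -/
def invCount {n : ℕ} (σ : Equiv.Perm (Fin n)) : ℕ :=
  (univ.filter fun S : Finset (Fin n) => ∀ i, σ i ∈ S ↔ i ∈ S).card

theorem invCount_decompose {n : ℕ} (p : Fin (n + 1)) (e : Equiv.Perm (Fin n)) :
    invCount (Equiv.Perm.decomposeFin.symm (p, e)) ≤ (if p = 0 then 2 else 1) * invCount e := by
  classical
  set σ := Equiv.Perm.decomposeFin.symm (p, e) with hσ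
  have h0 : ∀ S : Finset (Fin (n + 1)), (∀ i, σ i ∈ S ↔ i ∈ S) → (p ∈ S ↔ 0 ∈ S) := fun S h => by
    have := h 0
    rwa [hσ, Equiv.Perm.decomposeFin_symm_apply_zero] at this
  have h1 : ∀ S : Finset (Fin (n + 1)), (∀ i, σ i ∈ S ↔ i ∈ S) →
      ∀ i, e i ∈ univ.filter (fun x : Fin n => x.succ ∈ S) ↔
        i ∈ univ.filter (fun x : Fin n => x.succ ∈ S) := fun S h i => by
    have h2 := h i.succ
    rw [hσ, Equiv.Perm.decomposeFin_symm_apply_succ, Equiv.swap_apply_def] at h2
    simp only [mem_filter, mem_univ, true_and]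
    rw [← h2]
    have := h0 S h
    split_ifs with a b
    · exact absurd a (Fin.succ_ne_zero _)
    · rw [b]; exact this
    · rfl
  have h3 : ∀ S T : Finset (Fin (n + 1)), (0 ∈ S ↔ 0 ∈ T) →
      univ.filter (fun x : Fin n => x.succ ∈ S) = univ.filter (fun x : Fin n => x.succ ∈ T) →
      S = T := fun S T a b => by
    ext i
    refine Fin.cases a (fun j => ?_) i
    simpa using Finset.ext_iff.mp b j
  unfold invCount
  split_ifs with hp
  · rw [show 2 = (univ : Finset Bool).card from rfl, ← card_product]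
    refine card_le_card_of_injOn (fun S => (decide (0 ∈ S), univ.filter fun x : Fin n => x.succ ∈ S))
      (fun S hS => ?_) fun S _ T _ h => ?_
    · simp only [coe_filter, mem_univ, true_and, Set.mem_ofPred_eq] at hS
      simp only [coe_product, coe_univ, coe_filter, mem_univ, true_and, Set.mem_prod, Set.mem_univ,
        Set.mem_ofPred_eq]
      exact h1 S hS
    · simp only [Prod.mk.injEq, decide_eq_decide] at h
      exact h3 S T h.1 h.2
  · rw [one_mul]
    obtain ⟨q, rfl⟩ := Fin.exists_succ_eq.mpr hp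
    refine card_le_card_of_injOn (fun S => univ.filter fun x : Fin n => x.succ ∈ S)
      (fun S hS => ?_) fun S hS T hT h => ?_
    · simp only [coe_filter, mem_univ, true_and, Set.mem_ofPred_eq] at hS ⊢
      exact h1 S hS
    · simp only [coe_filter, mem_univ, true_and, Set.mem_ofPred_eq] at hS hT
      refine h3 S T ?_ h
      rw [← h0 S hS, ← h0 T hT]
      simpa using Finset.ext_iff.mp h q

theorem sum_rpow_succ {θ : ℝ} (h0 : 0 ≤ θ) (n : ℕ) :
    ∑ σ : Equiv.Perm (Fin (n + 1)), (invCount σ : ℝ) ^ θ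
      ≤ (2 ^ θ + n) * ∑ e : Equiv.Perm (Fin n), (invCount e : ℝ) ^ θ := by
  rw [← Equiv.Perm.decomposeFin.symm.sum_comp, Fintype.sum_prod_type, Fin.sum_univ_succ, add_mul]
  refine add_le_add ?_ ?_
  · rw [mul_sum]
    refine sum_le_sum fun e _ => ?_
    have := invCount_decompose 0 e
    rw [if_pos rfl] at this
    rw [← Real.mul_rpow (by norm_num) (by positivity)]
    exact Real.rpow_le_rpow (by positivity) (by exact_mod_cast this) h0
  · refine (sum_le_sum (g := fun _ => ∑ e : Equiv.Perm (Fin n), (invCount e : ℝ) ^ θ)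
      fun q _ => sum_le_sum fun e _ => ?_).trans (by simp)
    have := invCount_decompose q.succ e
    rw [if_neg (Fin.succ_ne_zero q), one_mul] at this
    exact Real.rpow_le_rpow (by positivity) (by exact_mod_cast this) h0

theorem sum_rpow_le {θ : ℝ} (h0 : 0 ≤ θ) (h1 : θ ≤ 1) (n : ℕ) :
    ∑ σ : Equiv.Perm (Fin (n + 1)), (invCount σ : ℝ) ^ θ
      ≤ 2 * (n + 1).factorial * ((n : ℝ) + 1) ^ ((2 : ℝ) ^ θ - 1) := by
  have u1 : (1 : ℝ) ≤ 2 ^ θ := Real.one_le_rpow (by norm_num) h0
  have u2 : (2 : ℝ) ^ θ ≤ 2 := Real.rpow_le_self_of_one_le (by norm_num) h1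
  induction n with
  | zero =>
    refine (sum_rpow_succ h0 0).trans ?_
    have : ∀ e : Equiv.Perm (Fin 0), invCount e = 1 := fun e => by
      unfold invCount
      rw [filter_true_of_mem fun _ _ i => i.elim0]
      rfl
    simpa [this] using u2
  | succ n ih =>
    refine (sum_rpow_succ h0 (n + 1)).trans
      ((mul_le_mul_of_nonneg_left ih (by positivity)).trans ?_)
    generalize (2 : ℝ) ^ θ = u at *
    have h0 : (0 : ℝ) < n + 1 := by positivity
    have h1 : 1 + (u - 1) * (1 / (n + 1 + 1)) ≤ (((n : ℝ) + 1 + 1) / (n + 1)) ^ (u - 1) := by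
      rw [Real.rpow_def_of_pos (by positivity)]
      refine le_trans ?_ ((add_comm _ _).le.trans (Real.add_one_le_exp _))
      have := Real.one_sub_inv_le_log_of_pos (show 0 < ((n : ℝ) + 1 + 1) / (n + 1) by positivity)
      have h2 : 1 - (((n : ℝ) + 1 + 1) / (n + 1))⁻¹ = 1 / (n + 1 + 1) := by field_simp; ring
      rw [h2] at this
      linarith [mul_le_mul_of_nonneg_left this (sub_nonneg.mpr u1)]
    rw [Real.div_rpow (by positivity) h0.le, le_div_iff₀ (by positivity)] at h1
    have h2 := mul_le_mul_of_nonneg_left h1 (show (0 : ℝ) ≤ n + 1 + 1 by positivity)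
    rw [← mul_assoc, show ((n : ℝ) + 1 + 1) * (1 + (u - 1) * (1 / (n + 1 + 1))) = u + (n + 1) by
      field_simp; ring] at h2
    rw [Nat.factorial_succ (n + 1)]
    push_cast
    have h4 : (0 : ℝ) ≤ (n + 1).factorial := by positivity
    linarith [mul_le_mul_of_nonneg_left h2 h4]

end Pool.Agent.Lib.MP_ff6929_pr
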