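import Pool.Agent.Lib.MP_ff6929_pr.Bound
import Pool.Agent.Lib.MP_ff6929_pr.Inv

set_option autoImplicit false

namespace Pool.Agent.Lib.MP_ff6929_pr

open Finset

/-- The arc from `x` to `y`. -/
def arc (x y : Fin 3) (h : x ≠ y) : Arc K3 := ⟨(x, y), h⟩

abbrev a01 : Arc K3 := arc 0 1 (by decide)
abbrev a02 : Arc K3 := arc 0 2 (by decide)
abbrev a10 : Arc K3 := arc 1 0 (by decide)
abbrev a12 : Arc K3 := arc 1 2 (by decide)
abbrev a20 : Arc K3 := arc 2 0 (by decide)
abbrev a21 : Arc K3 := arc 2 1 (by decide)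

theorem arc_cases : ∀ e : Arc K3,
    e = a01 ∨ e = a02 ∨ e = a10 ∨ e = a12 ∨ e = a20 ∨ e = a21 := by decide

theorem f3e : ∀ x y z w : Fin 3, x ≠ y → z ≠ y → x ≠ z → z ≠ w → w ≠ y → w = x := by decide

variable {n N : ℕ}

/-- The middle part of the holonomy. -/
def mid (M : Matchings K3 n) : Equiv.Perm (Fin n) := M a12 * (M a10)⁻¹ * M a20 * (M a21)⁻¹

/-- The holonomy along the alternating hexagon. -/
def hol (M : Matchings K3 n) : Equiv.Perm (Fin n) := (M a02)⁻¹ * mid M * M a01

theorem match_ext {M M' : Matchings K3 n} (h1 : M a01 = M' a01) (h2 : M a02 = M' a02)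
    (h3 : M a10 = M' a10) (h4 : M a12 = M' a12) (h5 : M a20 = M' a20) (h6 : M a21 = M' a21) :
    M = M' := by
  funext e
  rcases arc_cases e with rfl | rfl | rfl | rfl | rfl | rfl <;> assumption

theorem card_hol_le (P : Finset (Equiv.Perm (Fin n))) :
    (univ.filter fun M : Matchings K3 n => hol M ∈ P).card ≤ P.card * n.factorial ^ 5 := by
  have h : (P ×ˢ (univ : Finset (Equiv.Perm (Fin n) × Equiv.Perm (Fin n) × Equiv.Perm (Fin n) ×
      Equiv.Perm (Fin n) × Equiv.Perm (Fin n)))).card = P.card * n.factorial ^ 5 := by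
    simp only [card_product, card_univ, Fintype.card_prod, Fintype.card_perm, Fintype.card_fin]
    ring
  rw [← h]
  refine card_le_card_of_injOn (fun M => (hol M, M a02, M a10, M a12, M a20, M a21))
    (fun M hM => by simpa using hM) fun M _ M' _ h => ?_
  simp only [Prod.mk.injEq] at h
  obtain ⟨h1, h2, h3, h4, h5, h6⟩ := h
  refine match_ext ?_ h2 h3 h4 h5 h6
  rw [hol, hol, mid, mid, h2, h3, h4, h5, h6] at h1
  exact mul_left_cancel h1

section
variable {c : ZMod N ≃ Fin 3 × Fin n} {M : Matchings K3 n}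

theorem adj_eq (hM : ∀ v, (lift K3 n M).Adj v (nxt c v)) {x y : Fin 3} (h : x ≠ y) {i : Fin n}
    (hi : (nxt c (x, i)).1 = y) : M (arc x y h) i = (nxt c (x, i)).2 := by
  obtain ⟨_, h2⟩ := hM (x, i)
  subst hi
  exact h2

theorem hol_step (hM : ∀ v, (lift K3 n M).Adj v (nxt c v)) {x y z : Fin 3} (h1 : x ≠ y)
    (h2 : z ≠ y) (h3 : x ≠ z) {i : Fin n} (hi : (nxt c (x, i)).1 = y) :
    (nxt c (z, (M (arc z y h2))⁻¹ (M (arc x y h1) i))).1 = x := by
  refine f3e x y z _ h1 h2 h3 (hM (z, _)).1 fun h => h3 ?_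
  have a := adj_eq hM h2 h
  have b : nxt c (x, i) = nxt c (z, (M (arc z y h2))⁻¹ (M (arc x y h1) i)) :=
    Prod.ext (hi.trans h.symm) (by rw [← a, ← adj_eq hM h1 hi]; simp)
  unfold nxt at b
  have := c.symm.injective (add_right_cancel (c.injective b))
  exact congrArg Prod.fst this

theorem hol_inv (hM : ∀ v, (lift K3 n M).Adj v (nxt c v)) (i : Fin n) :
    hol M i ∈ fwd c 0 ↔ i ∈ fwd c 0 := by
  have h : ∀ i ∈ fwd c 0, hol M i ∈ fwd c 0 := fun i hi => by
    simp only [fwd, mem_filter, mem_univ, true_and] at hi ⊢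
    exact hol_step hM (x := 1) (y := 2) (z := 0) (by decide) (by decide) (by decide)
      (hol_step hM (x := 2) (y := 0) (z := 1) (by decide) (by decide) (by decide)
        (hol_step hM (x := 0) (y := 1) (z := 2) (by decide) (by decide) (by decide) hi))
  refine ⟨fun hi => ?_, h i⟩
  simpa using Equiv.Perm.perm_symm_on_of_perm_on_finset h hi

end

/-- The permutations compatible with the arrangement `c` on the arc `e`. -/
def pres (c : ZMod N ≃ Fin 3 × Fin n) (e : Arc K3) : Finset (Equiv.Perm (Fin n)) :=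
  univ.filter fun π => ∀ i ∈ univ.filter (fun i => (nxt c (e.1.1, i)).1 = e.1.2),
    π i = (nxt c (e.1.1, i)).2

theorem card_pres (c : ZMod N ≃ Fin 3 × Fin n) (hc : ∀ v, v.1 ≠ (nxt c v).1) (e : Arc K3) :
    (pres c e).card ≤ if e.1.2 = e.1.1 + 1 then (n - (fwd c 0).card).factorial
      else (fwd c 0).card.factorial := by
  have hjn : (fwd c 0).card ≤ n := by simpa using card_le_univ (fwd c 0)
  obtain ⟨⟨x, y⟩, hxy⟩ := e
  refine (card_perm_prescribed _ _).trans (le_of_eq ?_)
  simp only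
  split_ifs with h1
  · subst h1
    have := card_fwd_eq c hc x
    unfold fwd at this
    rw [this]; rfl
  · have h2 : univ.filter (fun i => (nxt c (x, i)).1 = y) = (fwd c x)ᶜ := by
      ext i
      have h3 := hc (x, i)
      have hxy' : x ≠ y := hxy
      simp only [fwd, mem_filter, mem_univ, true_and, mem_compl]
      exact f3d _ _ _ hxy' h1 h3
    rw [h2, card_compl, card_fwd_eq c hc x]
    simp [Nat.sub_sub_self hjn]

theorem card_planted (c : ZMod N ≃ Fin 3 × Fin n) (hc : ∀ v, v.1 ≠ (nxt c v).1)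
    (P : Finset (Equiv.Perm (Fin n))) :
    (univ.filter fun M : Matchings K3 n => (∀ v, (lift K3 n M).Adj v (nxt c v)) ∧ hol M ∈ P).card
      ≤ (P.filter fun σ => ∀ i, σ i ∈ fwd c 0 ↔ i ∈ fwd c 0).card *
        ((fwd c 0).card.factorial * (n - (fwd c 0).card).factorial) ^ 2 := by
  have h : ((P.filter fun σ => ∀ i, σ i ∈ fwd c 0 ↔ i ∈ fwd c 0) ×ˢ pres c a10 ×ˢ pres c a12 ×ˢ
      pres c a20 ×ˢ pres c a21).card ≤ (P.filter fun σ => ∀ i, σ i ∈ fwd c 0 ↔ i ∈ fwd c 0).card *
        ((fwd c 0).card.factorial * (n - (fwd c 0).card).factorial) ^ 2 := by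
    have b1 := card_pres c hc a10
    have b2 := card_pres c hc a12
    have b3 := card_pres c hc a20
    have b4 := card_pres c hc a21
    rw [if_neg (by decide)] at b1 b4
    rw [if_pos (by decide)] at b2 b3
    simp only [card_product]
    refine Nat.mul_le_mul_left _ ((Nat.mul_le_mul b1 (Nat.mul_le_mul b2
      (Nat.mul_le_mul b3 b4))).trans (le_of_eq (by ring)))
  refine le_trans ?_ h
  have hp : ∀ M : Matchings K3 n, (∀ v, (lift K3 n M).Adj v (nxt c v)) →
      ∀ e, M e ∈ pres c e := fun M hM e => by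
    simp only [pres, mem_filter, mem_univ, true_and]
    exact fun i hi => adj_eq hM e.2 hi
  refine card_le_card_of_injOn (fun M => (hol M, M a10, M a12, M a20, M a21))
    (fun M hM => ?_) fun M hM M' hM' h => ?_
  · simp only [coe_filter, mem_univ, true_and, Set.mem_ofPred_eq] at hM
    simp only [coe_product, coe_filter, Set.mem_prod, Set.mem_ofPred_eq, mem_coe]
    exact ⟨⟨hM.2, hol_inv hM.1⟩, hp M hM.1 _, hp M hM.1 _, hp M hM.1 _, hp M hM.1 _⟩
  simp only [coe_filter, mem_univ, true_and, Set.mem_ofPred_eq] at hM hM'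
  simp only [Prod.mk.injEq] at h
  obtain ⟨h1, h3, h4, h5, h6⟩ := h
  have hm : mid M = mid M' := by rw [mid, mid, h3, h4, h5, h6]
  have hh : ∀ (M : Matchings K3 n) i, M a02 (hol M i) = mid M (M a01 i) := fun M i => by
    simp [hol]
  have h2 : M a01 = M' a01 := by
    ext1 i
    by_cases hi : i ∈ fwd c 0
    · have hi' : (nxt c (0, i)).1 = 1 := by simpa [fwd] using hi
      exact (adj_eq hM.1 _ hi').trans (adj_eq hM'.1 _ hi').symm
    · have a := (hol_inv hM.1 i).not.mpr hi
      have b : (nxt c (0, hol M i)).1 = 2 :=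
        (f3d 0 2 _ (by decide) (by decide) (hc (0, hol M i))).mpr (by simpa [fwd] using a)
      have d : M a02 (hol M i) = M' a02 (hol M i) :=
        (adj_eq hM.1 _ b).trans (adj_eq hM'.1 _ b).symm
      rw [hh, h1, hh, hm] at d
      exact (mid M').injective d
  refine match_ext h2 ?_ h3 h4 h5 h6
  rw [hol, hol, hm, h2] at h1
  exact inv_injective (mul_right_cancel (mul_right_cancel h1))

open Classical in
theorem card_ham_hol (hn : 1 ≤ n) (P : Finset (Equiv.Perm (Fin n))) :
    (univ.filter fun M : Matchings K3 n => IsHamiltonian (lift K3 n M) ∧ hol M ∈ P).card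
      ≤ ((n - 1).factorial ^ 3 * (n * n) * n.factorial ^ 2) * ∑ σ ∈ P, invCount σ := by
  have : NeZero (Nat.card (Fin 3 × Fin n)) := ⟨by simp; omega⟩
  set N := Nat.card (Fin 3 × Fin n) with hN
  let i₀ : Fin n := ⟨0, hn⟩
  let C : Finset (ZMod N ≃ Fin 3 × Fin n) :=
    univ.filter (fun c => c 0 = (0, i₀) ∧ ∀ v, v.1 ≠ (nxt c v).1)
  have h1 : univ.filter (fun M : Matchings K3 n => IsHamiltonian (lift K3 n M) ∧ hol M ∈ P)
      ⊆ C.biUnion (fun c => univ.filter
        (fun M : Matchings K3 n => (∀ v, (lift K3 n M).Adj v (nxt c v)) ∧ hol M ∈ P)) := by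
    intro M hM
    simp only [mem_filter, mem_univ, true_and] at hM
    obtain ⟨⟨c, hc⟩, hP⟩ := hM
    let c' : ZMod N ≃ Fin 3 × Fin n := (Equiv.addRight (c.symm (0, i₀))).trans c
    have hc' : ∀ v, (lift K3 n M).Adj v (nxt c' v) := by
      intro v
      obtain ⟨k, rfl⟩ := c'.surjective v
      rw [nxt_apply]
      have := hc (k + c.symm (0, i₀))
      simp only [c', Equiv.trans_apply, Equiv.coe_addRight]
      rwa [add_right_comm k 1]
    rw [mem_biUnion]
    refine ⟨c', ?_, ?_⟩
    · simp only [C, mem_filter, mem_univ, true_and]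
      exact ⟨by simp [c'], fun v => (hc' v).1⟩
    · simp only [mem_filter, mem_univ, true_and]
      exact ⟨hc', hP⟩
  refine (card_le_card h1).trans (card_biUnion_le.trans ?_)
  let W : Finset (Fin n) → ℕ := fun S => (P.filter fun σ => ∀ i, σ i ∈ S ↔ i ∈ S).card *
    (S.card.factorial * (n - S.card).factorial) ^ 2
  refine (sum_le_sum (g := fun c => W (fwd c 0)) fun c hc =>
    card_planted c (mem_filter.1 hc).2.2 P).trans ?_
  rw [← sum_fiberwise_of_maps_to (g := fun c => fwd c 0) fun c _ => mem_univ _]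
  have h2 : ∑ σ ∈ P, invCount σ
      = ∑ S : Finset (Fin n), (P.filter fun σ => ∀ i, σ i ∈ S ↔ i ∈ S).card := by
    simp only [invCount, card_filter]
    exact sum_comm
  rw [h2, mul_sum]
  refine sum_le_sum fun S _ => ?_
  rw [sum_congr rfl fun c hc => congrArg W (mem_filter.1 hc).2, sum_const, smul_eq_mul]
  have hjn : S.card ≤ n := by simpa using card_le_univ S
  have h4 : (C.filter fun c => fwd c 0 = S).card ≤ ((n - 1).factorial ^ 3 * (n * n)) *
      (powersetCard S.card (univ : Finset (Fin n)) ×ˢ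
        powersetCard S.card (univ : Finset (Fin n))).card := by
    apply card_le_mul_card_image_of_maps_to (f := fun c => (fwd c 1, fwd c 2))
    · intro c hc
      simp only [C, mem_filter, mem_univ, true_and] at hc
      simp only [mem_product, mem_powersetCard, subset_univ, card_fwd_eq c hc.1.2, hc.2,
        and_self]
    · intro s _
      refine le_trans (card_le_card ?_) ((card_cycles_le (N := N) i₀ ![S, s.1, s.2]).trans
        (Nat.mul_le_mul_left _ (Nat.sub_le _ _)))
      intro c hc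
      simp only [C, mem_filter, mem_univ, true_and] at hc ⊢
      refine ⟨hc.1.1.1, hc.1.1.2, funext fun x => ?_⟩
      fin_cases x
      · exact hc.1.2
      · exact congrArg Prod.fst hc.2
      · exact congrArg Prod.snd hc.2
  simp only [card_product, card_powersetCard, card_univ, Fintype.card_fin] at h4
  refine (Nat.mul_le_mul_right _ h4).trans (le_of_eq ?_)
  simp only [W]
  rw [← Nat.choose_mul_factorial_mul_factorial hjn]
  ring

theorem hamProb_le_rpow {θ : ℝ} (h0 : 0 ≤ θ) (hθ : θ ≤ 1) (m : ℕ) : hamProb K3 (m + 1) ≤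
    (∑ σ : Equiv.Perm (Fin (m + 1)), (invCount σ : ℝ) ^ θ) /
      ((m + 1).factorial * ((m : ℝ) + 1) ^ θ) := by
  classical
  let P : Finset (Equiv.Perm (Fin (m + 1))) := univ.filter fun σ => invCount σ ≤ m + 1
  have h1 := card_ham_hol (n := m + 1) (by omega) P
  have h2 := card_hol_le Pᶜ
  have h3 : Nat.card {M : Matchings K3 (m + 1) // IsHamiltonian (lift K3 (m + 1) M)} ≤
      (m + 1 - 1).factorial ^ 3 * ((m + 1) * (m + 1)) * (m + 1).factorial ^ 2 *
        ∑ σ ∈ P, invCount σ + Pᶜ.card * (m + 1).factorial ^ 5 := by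
    rw [Nat.card_eq_fintype_card, Fintype.card_subtype]
    refine le_trans (card_le_card ?_) ((card_union_le _ _).trans (Nat.add_le_add h1 h2))
    intro M hM
    simp only [mem_filter, mem_univ, true_and, mem_union, mem_compl] at hM ⊢
    tauto
  have hm : (0 : ℝ) < m + 1 := by positivity
  have hs : 0 < ((m : ℝ) + 1) ^ θ := by positivity
  have h4 : ((m : ℝ) + 1) ^ θ * ∑ σ ∈ P, (invCount σ : ℝ)
      ≤ (m + 1) * ∑ σ ∈ P, (invCount σ : ℝ) ^ θ := by
    rw [mul_sum, mul_sum]
    refine sum_le_sum fun σ hσ => ?_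
    have a := Real.self_le_rpow_of_le_one (x := (invCount σ : ℝ) / (m + 1)) (by positivity)
      ((div_le_one hm).mpr (by exact_mod_cast (mem_filter.1 hσ).2)) hθ
    rw [Real.div_rpow (by positivity) hm.le, div_le_div_iff₀ hm hs] at a
    linarith
  have h5 : ((m : ℝ) + 1) ^ θ * Pᶜ.card ≤ ∑ σ ∈ Pᶜ, (invCount σ : ℝ) ^ θ := by
    rw [mul_comm, ← nsmul_eq_mul]
    refine card_nsmul_le_sum _ _ _ fun σ hσ => Real.rpow_le_rpow hm.le ?_ h0
    have : m + 1 ≤ invCount σ := by
      simp only [P, mem_compl, mem_filter, mem_univ, true_and] at hσ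
      omega
    exact_mod_cast this
  rw [← sum_add_sum_compl P]
  unfold hamProb
  rw [card_matchings, div_le_div_iff₀ (by positivity) (by positivity)]
  have h6 := (Nat.cast_le (α := ℝ)).mpr h3
  rw [Nat.add_sub_cancel, Nat.factorial_succ] at h6
  rw [Nat.factorial_succ]
  push_cast at h6 ⊢
  have hF : (0 : ℝ) < m.factorial := by positivity
  generalize (m.factorial : ℝ) = F at *
  refine (mul_le_mul_of_nonneg_right h6 (by positivity)).trans ?_
  have b1 := mul_le_mul_of_nonneg_left h4 (show 0 ≤ (m + 1) ^ 5 * F ^ 6 by positivity)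
  have b2 := mul_le_mul_of_nonneg_left h5 (show 0 ≤ (m + 1) ^ 6 * F ^ 6 by positivity)
  linarith

theorem hamProb_le_pow {θ : ℝ} (h0 : 0 ≤ θ) (hθ : θ ≤ 1) (m : ℕ) :
    hamProb K3 (m + 1) ≤ 2 * ((m : ℝ) + 1) ^ ((2 : ℝ) ^ θ - 1 - θ) := by
  refine (hamProb_le_rpow h0 hθ m).trans ?_
  rw [div_le_iff₀ (by positivity), Real.rpow_sub (by positivity) _ θ]
  refine (sum_rpow_le h0 hθ m).trans (le_of_eq ?_)
  field_simp

end Pool.Agent.Lib.MP_ff6929_pr
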